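import Pool.Agent.Y740.Z.Stm

/-! Project ZF (helper740), job 4924: the Frobenius congruence in a cyclotomic field, at one place. -/

set_option autoImplicit false

namespace Pool.Agent.Y274.ZF

open NumberField
open Pool.Agent.Y740.Z

section

variable {W : Type} [Field W] [NumberField W]

theorem v_le_one (v : FinitePlace W) {x : W} (hx : IsIntegral ℤ x) : v x ≤ 1 := by
  have h := FinitePlace.norm_le_one (K := W) (v := v.maximalIdeal) (⟨x, hx⟩ : 𝓞 W)
  rwa [FinitePlace.norm_embedding_eq] at h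

theorem v_lt_iff (v : FinitePlace W) (x : 𝓞 W) : v (x : W) < 1 ↔ x ∈ v.maximalIdeal.asIdeal := by
  have h := FinitePlace.norm_lt_one_iff_mem (K := W) (v := v.maximalIdeal) x
  rwa [FinitePlace.norm_embedding_eq] at h

theorem v_neg (v : FinitePlace W) (x : W) : v (-x) = v x := map_neg_eq_map v x

theorem v_sub_le (v : FinitePlace W) (x y : W) : v (x - y) ≤ max (v x) (v y) := by
  rw [sub_eq_add_neg, ← v_neg v y]
  exact FinitePlace.add_le v x (-y)

/-- the congruence for algebraic integers of the cyclotomic field -/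
def Pr (φ : W ≃ₐ[ℚ] W) (p : ℕ) (a : W) : Prop := IsIntegral ℤ a ∧
  ∃ b : W, IsIntegral ℤ b ∧ φ a - a ^ p = p * b

theorem Pr.add {φ : W ≃ₐ[ℚ] W} {p : ℕ} (hp : p.Prime) {a b : W} (ha : Pr φ p a) (hb : Pr φ p b) :
    Pr φ p (a + b) := by
  obtain ⟨ha0, a', ha1, ha2⟩ := ha
  obtain ⟨hb0, b', hb1, hb2⟩ := hb
  refine ⟨ha0.add hb0, ?_⟩
  obtain ⟨A, hA⟩ : ∃ A : 𝓞 W, (A : W) = a := ⟨⟨a, ha0⟩, rfl⟩
  obtain ⟨B, hB⟩ : ∃ B : 𝓞 W, (B : W) = b := ⟨⟨b, hb0⟩, rfl⟩
  obtain ⟨r, hr⟩ := exists_add_pow_prime_eq hp A B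
  have hr' : (a + b) ^ p = a ^ p + b ^ p + p * a * b * (r : W) := by
    have h := congrArg (algebraMap (𝓞 W) W) hr
    simp only [map_add, map_mul, map_pow, map_natCast] at h
    rw [← hA, ← hB]
    exact h
  refine ⟨a' + b' - a * b * (r : W), (ha1.add hb1).sub ((ha0.mul hb0).mul r.isIntegral_coe), ?_⟩
  rw [map_add, hr']
  linear_combination ha2 + hb2

theorem Pr.mul {φ : W ≃ₐ[ℚ] W} {p : ℕ} {a b : W} (ha : Pr φ p a) (hb : Pr φ p b) :
    Pr φ p (a * b) := by
  obtain ⟨ha0, a', ha1, ha2⟩ := ha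
  obtain ⟨hb0, b', hb1, hb2⟩ := hb
  have hφb : IsIntegral ℤ (φ b) := by
    have := hb0.map (φ.toAlgHom.restrictScalars ℤ)
    exact this
  refine ⟨ha0.mul hb0, a' * φ b + a ^ p * b', (ha1.mul hφb).add ((ha0.pow p).mul hb1), ?_⟩
  rw [map_mul]
  linear_combination φ b * ha2 + a ^ p * hb2

theorem Pr.int {φ : W ≃ₐ[ℚ] W} {p : ℕ} (hp : p.Prime) (n : ℤ) : Pr φ p (n : W) := by
  refine ⟨isIntegral_algebraMap (R := ℤ) (x := n), ?_⟩
  have : Fact p.Prime := ⟨hp⟩
  have h : (p : ℤ) ∣ n - n ^ p := by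
    rw [← ZMod.intCast_zmod_eq_zero_iff_dvd, Int.cast_sub, Int.cast_pow, ZMod.pow_card, sub_self]
  obtain ⟨k, hk⟩ := h
  refine ⟨(k : W), isIntegral_algebraMap (R := ℤ) (x := k), ?_⟩
  rw [map_intCast]
  exact_mod_cast congrArg (fun x : ℤ => (x : W)) hk

end

theorem t_F1 : S_F1 := by
  intro W _ _ M ζ hM hζ φ p hp hφ v hv c hc hvc
  have : NeZero M := ⟨hM.ne'⟩
  set L := IntermediateField.adjoin ℚ {ζ} with hL
  have hcyc : IsCyclotomicExtension {M} ℚ L := hζ.intermediateField_adjoin_isCyclotomicExtension ℚ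
  have hnf : NumberField L := NumberField.of_intermediateField L
  have hζL : IsPrimitiveRoot (IntermediateField.AdjoinSimple.gen ℚ ζ) M :=
    IsPrimitiveRoot.coe_submonoidClass_iff.mp hζ
  have htop := IsCyclotomicExtension.Rat.adjoin_singleton_eq_top hζL
  -- the congruence on the integers of `L`
  have hint : ∀ a : 𝓞 L, Pr φ p ((a : L) : W) := by
    intro a
    have ha : a ∈ Algebra.adjoin ℤ {hζL.toInteger} := by
      rw [htop]
      exact Algebra.mem_top
    induction ha using Algebra.adjoin_induction with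
    | mem x hx =>
      rw [Set.mem_singleton_iff] at hx
      subst hx
      have e : ((hζL.toInteger : L) : W) = ζ := rfl
      rw [e]
      refine ⟨hζ.isIntegral hM, 0, isIntegral_zero, ?_⟩
      rw [hφ, sub_self, mul_zero]
    | algebraMap r =>
      have e : (((algebraMap ℤ (𝓞 L) r : 𝓞 L) : L) : W) = (r : W) := by
        simp
      rw [e]
      exact Pr.int hp r
    | add x y _ _ hx hy =>
      have e : (((x + y : 𝓞 L) : L) : W) = ((x : L) : W) + ((y : L) : W) := by
        simp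
      rw [e]
      exact hx.add hp hy
    | mul x y _ _ hx hy =>
      have e : (((x * y : 𝓞 L) : L) : W) = ((x : L) : W) * ((y : L) : W) := by
        simp
      rw [e]
      exact hx.mul hy
  have hvint : ∀ a : 𝓞 L, v ((a : L) : W) ≤ 1 := fun a => v_le_one v (hint a).1
  have hcong : ∀ a : 𝓞 L, v (φ ((a : L) : W) - ((a : L) : W) ^ p) ≤ v (p : W) := by
    intro a
    obtain ⟨b, hb1, hb2⟩ := (hint a).2
    rw [hb2, map_mul]
    have := v_le_one v hb1
    have h0 : 0 ≤ v (p : W) := apply_nonneg v _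
    nlinarith
  -- the prime ideal
  let 𝔭 : Ideal (𝓞 L) := Ideal.comap (algebraMap (𝓞 L) (𝓞 W)) v.maximalIdeal.asIdeal
  have hprime : 𝔭.IsPrime := Ideal.IsPrime.comap _
  have hmem : ∀ x : 𝓞 L, x ∈ 𝔭 ↔ v ((x : L) : W) < 1 := by
    intro x
    rw [Ideal.mem_comap, ← v_lt_iff]
    rfl
  have hne : 𝔭 ≠ ⊥ := by
    intro h
    have h1 : ((p : ℕ) : 𝓞 L) ∈ 𝔭 := by
      rw [hmem]
      simpa using hv
    rw [h, Ideal.mem_bot] at h1
    have : (p : ℕ) = 0 := by exact_mod_cast h1
    exact hp.ne_zero this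
  have hone : ∀ x : 𝓞 L, x ∉ 𝔭 → v ((x : L) : W) = 1 := by
    intro x hx
    rw [hmem, not_lt] at hx
    exact le_antisymm (hvint x) hx
  have hdvr := IsLocalization.AtPrime.isDiscreteValuationRing_of_dedekind_domain (𝓞 L) hne
    (Localization.AtPrime 𝔭)
  have hinj : Function.Injective (algebraMap (𝓞 L) (Localization.AtPrime 𝔭)) :=
    IsLocalization.injective _ 𝔭.primeCompl_le_nonZeroDivisors
  have hloc : ∀ x y : 𝓞 L, algebraMap (𝓞 L) (Localization.AtPrime 𝔭) y ∣
      algebraMap (𝓞 L) (Localization.AtPrime 𝔭) x → ∃ s t : 𝓞 L, t ∉ 𝔭 ∧ x * t = y * s := by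
    intro x y ⟨z, hz⟩
    obtain ⟨⟨s, t⟩, hst⟩ := IsLocalization.surj 𝔭.primeCompl z
    refine ⟨s, t, t.2, hinj ?_⟩
    simp only at hst
    rw [map_mul, map_mul, hz, mul_assoc, hst]
  -- the quotient
  have hquot : ∃ a b : 𝓞 L, v ((b : L) : W) = 1 ∧ c * ((b : L) : W) = ((a : L) : W) := by
    obtain ⟨x, y, hy, hxy⟩ := IsFractionRing.div_surjective (A := 𝓞 L) (⟨c, hc⟩ : L)
    have hy0 : y ≠ 0 := nonZeroDivisors.ne_zero hy
    have hyW : ((y : L) : W) ≠ 0 := by
      intro h
      apply hy0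
      have : (y : L) = 0 := Subtype.ext h
      exact RingOfIntegers.coe_eq_zero_iff.1 this
    have hcxy : c * ((y : L) : W) = ((x : L) : W) := by
      have h1 : ((algebraMap (𝓞 L) L x / algebraMap (𝓞 L) L y : L) : W) = c :=
        congrArg (fun u : L => (u : W)) hxy
      rw [← h1]
      have h2 : ((algebraMap (𝓞 L) L x / algebraMap (𝓞 L) L y : L) : W) =
          ((x : L) : W) / ((y : L) : W) := by
        push_cast
        rfl
      rw [h2, div_mul_cancel₀ _ hyW]
    rcases ValuationRing.dvd_total (algebraMap (𝓞 L) (Localization.AtPrime 𝔭) y)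
      (algebraMap (𝓞 L) (Localization.AtPrime 𝔭) x) with h | h
    · obtain ⟨s, t, ht, hst⟩ := hloc x y h
      refine ⟨s, t, hone t ht, ?_⟩
      have hst' : ((x : L) : W) * ((t : L) : W) = ((y : L) : W) * ((s : L) : W) := by
        have := congrArg (fun u : 𝓞 L => ((u : L) : W)) hst
        simpa using this
      apply mul_left_cancel₀ hyW
      rw [← hst', ← hcxy]
      ring
    · obtain ⟨s, t, ht, hst⟩ := hloc y x h
      have hst' : ((y : L) : W) * ((t : L) : W) = ((x : L) : W) * ((s : L) : W) := by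
        have := congrArg (fun u : 𝓞 L => ((u : L) : W)) hst
        simpa using this
      have h3 : ((t : L) : W) = c * ((s : L) : W) := by
        apply mul_left_cancel₀ hyW
        rw [hst', ← hcxy]
        ring
      have h4 : v ((s : L) : W) = 1 := by
        apply le_antisymm (hvint s)
        have h5 := hone t ht
        rw [h3, map_mul] at h5
        have h6 : 0 ≤ v ((s : L) : W) := apply_nonneg v _
        nlinarith
      exact ⟨t, s, h4, h3.symm⟩
  obtain ⟨a, b, hb, hab⟩ := hquot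
  have hbW : ((b : L) : W) ≠ 0 := by
    intro h
    rw [h, map_zero] at hb
    exact zero_ne_one hb
  have hvb : v (φ ((b : L) : W)) = 1 := by
    have h1 := hcong b
    have h2 : v (((b : L) : W) ^ p) = 1 := by rw [map_pow, hb, one_pow]
    apply le_antisymm
    · have h3 := FinitePlace.add_le v (φ ((b : L) : W) - ((b : L) : W) ^ p) (((b : L) : W) ^ p)
      rw [sub_add_cancel, h2] at h3
      exact h3.trans (max_le (h1.trans hv.le) le_rfl)
    · have h3 := v_sub_le v (φ ((b : L) : W)) (φ ((b : L) : W) - ((b : L) : W) ^ p)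
      rw [sub_sub_cancel, h2] at h3
      rcases le_max_iff.1 h3 with h4 | h4
      · exact h4
      · exact absurd (h4.trans h1) (not_le.2 hv)
  have hφb : φ ((b : L) : W) ≠ 0 := by
    intro h
    rw [h, map_zero] at hvb
    exact zero_ne_one hvb
  have hid : (φ c - c ^ p) * (φ ((b : L) : W) * ((b : L) : W) ^ p) =
      (φ ((a : L) : W) - ((a : L) : W) ^ p) * ((b : L) : W) ^ p -
        ((a : L) : W) ^ p * (φ ((b : L) : W) - ((b : L) : W) ^ p) := by
    have h1 : φ c * φ ((b : L) : W) = φ ((a : L) : W) := by rw [← map_mul, hab]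
    have h2 : c ^ p * ((b : L) : W) ^ p = ((a : L) : W) ^ p := by rw [← mul_pow, hab]
    linear_combination ((b : L) : W) ^ p * h1 - φ ((b : L) : W) * h2
  have hfin := congrArg v hid
  rw [map_mul, map_mul, hvb, map_pow, hb, one_pow, mul_one, mul_one] at hfin
  rw [hfin]
  refine (v_sub_le v _ _).trans (max_le ?_ ?_)
  · rw [map_mul, map_pow, hb, one_pow, mul_one]
    exact hcong a
  · rw [map_mul, map_pow]
    have h1 : v ((a : L) : W) ^ p ≤ 1 := pow_le_one₀ (apply_nonneg v _) (hvint a)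
    have h2 : 0 ≤ v (φ ((b : L) : W) - ((b : L) : W) ^ p) := apply_nonneg v _
    calc _ ≤ 1 * v (φ ((b : L) : W) - ((b : L) : W) ^ p) := mul_le_mul_of_nonneg_right h1 h2
      _ ≤ v (p : W) := by
          rw [one_mul]
          exact hcong b

end Pool.Agent.Y274.ZF
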